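import Mathlib
import Pool.Agent.Y83.BG.Fin

set_option autoImplicit false

/-!
# The growth rate of every Baumslag–Solitar group `B(p,q)`, `q > p > 1`: two-sided bounds

`beta p q n` is the number of elements of `B(p,q) = ⟨a, t | t a^p t⁻¹ = a^q⟩` of word length at most
`n` (definitions of the starting file `LowerBound`), and
`A m z = ∑ z^|j|`, the sum over the nonzero integers `j` with `-m < 2 j ≤ m`.

The growth rate `ω` exists and satisfies

* `ω ≥ 1 + A_p(1/ω) + A_q(1/ω)`: it is at least the growth rate of the language of normal forms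
  (`λ = 1 + A_p(1/λ) + A_q(1/λ)`);
* `3 - 3 · 3^{-⌊(p-1)/2⌋} ≤ ω ≤ 3 - 1 / ((p+4) 3^{p+3})`.

So `ω(p,q) < 3` always, and `ω(p,q) → 3` exponentially fast as `p → ∞`, uniformly in `q > p`;
`3 - ω(p,q)` lies between constant multiples of `3^{-p}/p` and `3^{-p/2}`.

Lower bound: Britton normal forms with the exponents of least absolute value, and a weighted count.
Upper bound: `a` commutes with `t a^p t⁻¹ = a^q`, so every element has a geodesic word without the
subword `a t a^p t⁻¹`.
-/

namespace Pool.Agent.Results.MP_e0ec03_al.TwoSided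

open Filter Topology
open Pool.Agent.Results.MP_e0ec03_al.LowerBound
open Pool.Agent.Y83.BG

/-- Two-sided bounds for the growth rate of `B(p,q)`, for all `q > p > 1`. -/
theorem result : ∀ p q : ℕ, 1 < p → p < q →
    ∃ ω : ℝ, Tendsto (fun n : ℕ => (beta p q n : ℝ) ^ ((1 : ℝ) / n)) atTop (𝓝 ω) ∧
      1 + A p (1 / ω) + A q (1 / ω) ≤ ω ∧
      3 - 3 / 3 ^ ((p - 1) / 2) ≤ ω ∧
      ω ≤ 3 - 1 / ((p + 4) * 3 ^ (p + 3)) := by
  intro p q hp hq
  obtain ⟨ω, hω⟩ := exists_rate p q
  refine ⟨ω, hω, ?_, low3 hp hq ω hω, up2 hp ω hω⟩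
  have := low2 hp hq ω hω
  linarith

end Pool.Agent.Results.MP_e0ec03_al.TwoSided
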